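import Pool.Agent.H18.XX.TB
import Pool.Agent.H70.QC.AltS

/-!
# LOY: the weights of the blocks of small scale depend only on the short strings (helper90)
-/

set_option autoImplicit false

namespace Pool.Agent.H90.XX

open Finset Pool.Agent.H6.NB Pool.Agent.H70.OQ Pool.Agent.H70.EH Pool.Agent.H70.EI Pool.Agent.H78.XQ
open Pool.Agent.H66.IP (Local ins sp dm IsZ scl mBp m0p)
open Pool.Agent.H18.XX

/-- A decision tree with short queries sees only the short strings. -/
theorem dt_congr {m : ℕ} {O O' : List Bool → Bool} (h : ∀ w : List Bool, w.length ≤ m → O w = O' w)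
    (t : DT) (ht : t.Short m) : t.eval O = t.eval O' := by
  induction t with
  | leaf b => rfl
  | node w l r hl hr =>
    have h1 : w.length ≤ m := ht.1
    simp only [DT.eval, h w h1, hl ht.2.1, hr ht.2.2]

/-- The language of an alternating machine at `x` depends only on the strings of length at most its
time. -/
theorem atm_congr (M : ATM) (x : List Bool) {O O' : List Bool → Bool}
    (h : ∀ w : List Bool, w.length ≤ M.time x.length → O w = O' w) :
    x ∈ M.lang O ↔ x ∈ M.lang O' := by
  unfold ATM.lang
  simp only [Set.mem_ofPred_eq]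
  refine Pool.Agent.H70.QC.alt_congr fun ws hl hw => ?_
  rw [dt_congr h _ (M.short x ws hl hw)]

theorem pf_LOY (hIZU : Pool.Agent.H66.IP.T_IZU) : T_LOY := by
  classical
  intro V E O hO n g g' hn hg P
  unfold wy
  refine prod_congr rfl fun p _ => ?_
  by_cases h : scl (lx V) p.1 ≤ Nat.log 2 n + 18
  · rw [if_pos h, if_pos h]
    have key : p.1.2 ∈ (V p.1.1).M.lang (O P g) ↔ p.1.2 ∈ (V p.1.1).M.lang (O P g') := by
      refine atm_congr _ _ fun w hw => (hIZU (dm (lx V)) E O hO).2 P g g' w (hg w (hw.trans ?_))
      have hb := (V p.1.1).bound p.1.2.length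
      have hs : p.1.2.length + p.1.1 + (p.1.2.length ^ (V p.1.1).c + (V p.1.1).c) + 20 ≤
          Nat.log 2 n + 18 := h
      have h1 : Nat.log 2 ((V p.1.1).M.time p.1.2.length) + 1 ≤ Nat.log 2 n := by omega
      exact ((Nat.lt_pow_succ_log_self (by norm_num) _).le.trans
        (Nat.pow_le_pow_right (by norm_num) h1)).trans (Nat.pow_log_le_self 2 (by omega))
    have key2 : ax V (O P g) p.1 = ax V (O P g') p.1 := decide_eq_decide.2 key
    rw [key2]
  · rw [if_neg h, if_neg h]

end Pool.Agent.H90.XX
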